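import Mathlib

set_option autoImplicit false

namespace Pool.Agent.H.MP_bf1b21_an

open Set Cardinal TopologicalSpace

theorem klee {X : Type} [PseudoMetricSpace X] (h : ∀ Z : Set X, #Z < #X → ∀ x, (∀ z ∈ Z, 1 < dist x z) →
    ∃ y, dist x y ≤ 1 ∧ ∀ z ∈ Z, 2 < dist y z) :
    ∃ c : X → X, (∀ x, dist x (c x) ≤ 1) ∧ ∀ x x', c x = c x' ∨ 2 < dist (c x) (c x') := by
  obtain ⟨r, _, hr⟩ := Cardinal.exists_ord_eq X
  have : ∀ x (f : ∀ y, r y x → X), ∃ y, dist x y ≤ 1 ∧ ((∃ z h, y = f z h) ∨ ∀ z h, 2 < dist y (f z h)) :=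
    fun x f => by
      by_cases c : ∃ z h, dist x (f z h) ≤ 1
      · obtain ⟨z, a, b⟩ := c
        exact ⟨_, b, .inl ⟨z, a, rfl⟩⟩
      · push Not at c
        obtain ⟨y, a, b⟩ := h (range fun z : {y // r y x} => f z z.2)
          (mk_range_le.trans_lt (by simpa using card_typein_lt x hr)) x (forall_mem_range.mpr fun z => c z z.2)
        exact ⟨y, a, .inr fun z h => b _ ⟨⟨z, h⟩, rfl⟩⟩
  choose F f1 f2 using this
  have w : WellFounded r := IsWellFounded.wf
  have e := w.fix_eq F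
  generalize w.fix F = c at e
  refine ⟨c, fun x => e x ▸ f1 x _, fun x x' => ?_⟩
  have : ∀ x x', r x' x → c x = c x' ∨ 2 < dist (c x) (c x') := fun x => by
    induction x using w.induction with | _ x ih => ?_
    intro x' a
    rcases f2 x fun y _ => c y with ⟨z, b, d⟩ | d <;> rw [← e] at d
    · rw [d]
      rcases trichotomous_of r z x' with g | rfl | g
      · simpa only [eq_comm, dist_comm] using ih x' a z g
      · exact .inl rfl
      · exact ih z b x' g
    · exact .inr (d x' a)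
  rcases trichotomous_of r x x' with g | rfl | g
  · simpa only [eq_comm, dist_comm] using this x' x g
  · exact .inl rfl
  · exact this x x' g

theorem sep : SeparableSpace ((ℕ → Bool) → Bool) := by
  classical
  have := Clopens.countable_iff_secondCountable (X := ℕ → Bool) |>.mpr inferInstance
  refine ⟨range fun U : Clopens (ℕ → Bool) => fun t => decide (t ∈ U), countable_range _,
    dense_iff_inter_open.mpr fun V hV ⟨f, hf⟩ => ?_⟩
  obtain ⟨I, u, a, b⟩ := isOpen_pi_iff.mp hV f hf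
  obtain ⟨C, c1, c2, c3⟩ := exists_clopen_of_closed_subset_open (Z := {i ∈ (I : Set (ℕ → Bool)) | f i})
    (U := {i ∈ (I : Set (ℕ → Bool)) | ¬ f i}ᶜ) (I.finite_toSet.sep _).isClosed
    (I.finite_toSet.sep _).isClosed.isOpen_compl fun i h h' => h'.2 h.2
  refine ⟨_, b fun i hi => ?_, ⟨C, c1⟩, rfl⟩
  convert (a i hi).2
  cases h : f i
  · exact decide_eq_false fun g => c3 g ⟨hi, by simp [h]⟩
  · exact decide_eq_true (c2 ⟨hi, h⟩)

theorem card : #C((ℕ → Bool) → Bool, ℝ) ≤ 𝔠 := by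
  have := sep
  refine (mk_le_of_injective (f := fun f n => f (denseSeq _ n)) fun f g h => ContinuousMap.ext (congrFun
    ((denseRange_denseSeq _).equalizer f.continuous g.continuous h))).trans (by simp [mk_real])

theorem ext (Z : Set C((ℕ → Bool) → Bool, ℝ)) (hZ : #Z < 𝔠) (x) (h : ∀ z ∈ Z, 1 < dist x z) :
    ∃ y, dist x y ≤ 1 ∧ ∀ z ∈ Z, 2 < dist y z := by
  classical
  have : ∀ z : Z, ∃ (b : Bool) (t : (ℕ → Bool) → Bool) (I : Finset (ℕ → Bool)),
      ∀ t', (∀ i ∈ I, t' i = t i) → 1 < (if b then 1 else -1) * (x t' - z.1 t') := fun z => by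
    obtain ⟨t, ht⟩ := not_forall.mp fun c => (h z z.2).not_ge ((ContinuousMap.dist_le zero_le_one).mpr c)
    obtain ⟨b, hb⟩ : ∃ b : Bool, 1 < (if b then 1 else -1) * (x t - z.1 t) := by
      rcases lt_abs.mp (not_le.mp ht) with c | c
      exacts [⟨true, by simpa using c⟩, ⟨false, by simpa using c⟩]
    obtain ⟨I, u, a, d⟩ := isOpen_pi_iff.mp (isOpen_lt continuous_const
      (g := fun t => (if b then 1 else -1) * (x t - z.1 t)) (by fun_prop)) t hb
    exact ⟨b, t, I, fun t' e => d fun i hi => e i hi ▸ (a i hi).2⟩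
  choose b t I e using this
  obtain ⟨β, hβ⟩ : ∃ β, β ∉ ⋃ z, (I z : Set (ℕ → Bool)) := by
    by_contra! c
    have := (mk_iUnion_le fun z => (I z : Set (ℕ → Bool))).trans_lt (mul_lt_of_lt aleph0_le_continuum hZ
      ((ciSup_le' fun z => (I z).finite_toSet.lt_aleph0.le).trans_lt aleph0_lt_continuum))
    simp [eq_univ_of_forall c] at this
  refine ⟨x + ⟨fun t => if t β then 1 else -1, (continuous_of_discreteTopology
    (f := fun b : Bool => if b then (1 : ℝ) else -1)).comp (continuous_apply β)⟩,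
    (ContinuousMap.dist_le zero_le_one).mpr fun t => ?_, fun z hz => ?_⟩
  · by_cases c : t β <;> simp [c]
  · have := e ⟨z, hz⟩ (Function.update (t ⟨z, hz⟩) β (b ⟨z, hz⟩)) fun i hi =>
      Function.update_of_ne (fun c => hβ (mem_iUnion.mpr ⟨_, c ▸ hi⟩)) _ _
    refine lt_of_lt_of_le ?_ (ContinuousMap.dist_apply_le_dist (Function.update (t ⟨z, hz⟩) β (b ⟨z, hz⟩)))
    rw [Real.dist_eq, lt_abs]
    cases c : b ⟨z, hz⟩ <;> simp [c] at this ⊢
    · right; linarith
    · left; linarith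

end Pool.Agent.H.MP_bf1b21_an
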